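import Mathlib
import Pool.Agent.U398.MV.Stm2
import Pool.Agent.U94.MV.VC

set_option autoImplicit false

/-!
Package VCS of project MV2: integrals of the shifted prime sum `Vps`.
-/

namespace Pool.Agent.U94.MV2.VCS

open MeasureTheory Filter Topology Set
open Pool.Agent.U398.MV Pool.Agent.U94.MV.VC

noncomputable section

lemma cg_zero : cg 0 = Real.sqrt Real.pi := by
  unfold cg
  rw [← gauss_val]
  congr 1
  ext w
  rw [zero_mul, Real.cos_zero, mul_one]

lemma summable_s (s u : ℝ) : Summable fun n : ℕ =>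
    ac n * Real.exp (-(u - Real.log n) ^ 2) * Real.cos (s * Real.log n) := by
  refine Summable.of_norm_bounded (summable_term u) fun n => ?_
  rw [Real.norm_eq_abs, abs_mul,
    abs_of_nonneg (mul_nonneg (ac_nonneg n) (Real.exp_nonneg _))]
  exact mul_le_of_le_one_right (mul_nonneg (ac_nonneg n) (Real.exp_nonneg _))
    (Real.abs_cos_le_one _)

/-- interchange of sum and integral -/
lemma interchange_s {U : ℝ} (hU : 1 ≤ U) (s : ℝ) :
    HasSum (fun n : ℕ => ac n * Real.cos (s * Real.log n) * J U 0 (Real.log n))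
      (∫ u in (1 : ℝ)..U, Vps s u / u ^ 2) := by
  have key : HasSum (fun n : ℕ => ∫ u in (1 : ℝ)..U,
      ac n * Real.cos (s * Real.log n) *
        (Real.exp (-(u - Real.log n) ^ 2) * Real.cos (u * 0) / u ^ 2))
      (∫ u in (1 : ℝ)..U, Vps s u / u ^ 2) := by
    refine intervalIntegral.hasSum_integral_of_dominated_convergence (fun n _ => bd U n) ?_ ?_ ?_ ?_ ?_
    · intro n
      refine ContinuousOn.aestronglyMeasurable ?_ measurableSet_uIoc
      refine ContinuousOn.mul continuousOn_const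
        (ContinuousOn.div (by fun_prop) (by fun_prop) fun u hu => ?_)
      rw [uIoc_of_le hU] at hu
      have : 1 < u := hu.1
      positivity
    · intro n
      refine ae_of_all _ fun u hu => ?_
      rw [uIoc_of_le hU] at hu
      have hu1 : 1 < u := hu.1
      rw [mul_zero, Real.cos_zero, mul_one, Real.norm_eq_abs, abs_mul, abs_mul,
        abs_of_nonneg (ac_nonneg n), abs_div,
        abs_of_nonneg (Real.exp_nonneg _), abs_of_nonneg (by positivity : 0 ≤ u ^ 2)]
      refine le_trans ?_ (term_le (u := u) hu.2 n)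
      have ha := ac_nonneg n
      have h1 : Real.exp (-(u - Real.log n) ^ 2) / u ^ 2 ≤ Real.exp (-(u - Real.log n) ^ 2) :=
        div_le_self (Real.exp_nonneg _) (one_le_pow₀ hu1.le)
      have h2 : ac n * |Real.cos (s * Real.log n)| ≤ ac n :=
        mul_le_of_le_one_right ha (Real.abs_cos_le_one _)
      exact mul_le_mul h2 h1 (by positivity) ha
    · exact ae_of_all _ fun u _ => summable_bd U
    · exact intervalIntegrable_const
    · refine ae_of_all _ fun u _ => ?_
      have h1 : HasSum (fun n : ℕ => ac n * Real.exp (-(u - Real.log n) ^ 2) *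
          Real.cos (s * Real.log n)) (Vps s u) := (summable_s s u).hasSum
      have h2 := h1.mul_right (1 / u ^ 2)
      rw [mul_one_div] at h2
      refine h2.congr_fun ?_
      intro n
      rw [mul_zero, Real.cos_zero, mul_one]
      ring
  refine key.congr_fun ?_
  intro n
  unfold J
  rw [intervalIntegral.integral_const_mul]

/-- the integral is close to the sum of the main terms -/
lemma step_one_s {C : ℝ} (hC : 0 ≤ C) (hV : ∀ u, 0 ≤ u → Vp u ≤ C * (1 + u)) {U : ℝ} (hU : 1 ≤ U)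
    (s : ℝ) : |(∫ u in (1 : ℝ)..U, Vps s u / u ^ 2) -
      ∑' n : ℕ, ac n * Real.cos (s * Real.log n) * Mn U 0 (Real.log n)| ≤ 2 * kk * ee C := by
  have hS := interchange_s hU s
  have hbd : ∀ S : Finset ℕ, ∑ n ∈ S, ‖ac n * Real.cos (s * Real.log n) * J U 0 (Real.log n) -
      ac n * Real.cos (s * Real.log n) * Mn U 0 (Real.log n)‖ ≤ 2 * kk * ee C := by
    intro S
    calc ∑ n ∈ S, ‖ac n * Real.cos (s * Real.log n) * J U 0 (Real.log n) -
          ac n * Real.cos (s * Real.log n) * Mn U 0 (Real.log n)‖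
        ≤ ∑ n ∈ S, 2 * kk * (ac n * Bf U (Real.log n)) := by
          refine Finset.sum_le_sum fun n _ => ?_
          have ha := ac_nonneg n
          rw [← mul_sub, norm_mul, norm_mul, Real.norm_eq_abs, abs_of_nonneg ha,
            Real.norm_eq_abs, Real.norm_eq_abs]
          calc ac n * |Real.cos (s * Real.log n)| * |J U 0 (Real.log n) - Mn U 0 (Real.log n)| ≤
                ac n * (2 * kk * Bf U (Real.log n)) := by
                refine mul_le_mul (mul_le_of_le_one_right ha (Real.abs_cos_le_one _))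
                  (term_all hU) (abs_nonneg _) ha
            _ = _ := by ring
      _ = 2 * kk * ∑ n ∈ S, ac n * Bf U (Real.log n) := by rw [Finset.mul_sum]
      _ ≤ _ := by
          have := kk_nonneg
          gcongr
          exact err_sum hC hV hU S
  have hsum : Summable fun n : ℕ => ‖ac n * Real.cos (s * Real.log n) * J U 0 (Real.log n) -
      ac n * Real.cos (s * Real.log n) * Mn U 0 (Real.log n)‖ :=
    summable_of_sum_le (fun n => norm_nonneg _) hbd
  have hs2 := hsum.of_norm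
  have hM : Summable fun n : ℕ => ac n * Real.cos (s * Real.log n) * Mn U 0 (Real.log n) := by
    have := hS.summable.sub hs2
    refine this.congr fun n => ?_
    ring
  rw [← hS.tsum_eq, ← hS.summable.tsum_sub hM, ← Real.norm_eq_abs]
  exact (norm_tsum_le_tsum_norm hsum).trans (hsum.tsum_le_of_sum_le hbd)

lemma main_eq_s {U s : ℝ} :
    ∑' n : ℕ, ac n * Real.cos (s * Real.log n) * Mn U 0 (Real.log n) =
    Real.sqrt Real.pi * ∑ n ∈ Finset.Icc 1 ⌊Real.exp U⌋₊, Gf s n := by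
  rw [tsum_eq_sum (s := Finset.Icc 1 ⌊Real.exp U⌋₊), Finset.mul_sum]
  · refine Finset.sum_congr rfl fun n hn => ?_
    have hn1 : 1 ≤ n := (Finset.mem_Icc.1 hn).1
    have hn2 : (n : ℝ) ≤ Real.exp U := (Nat.le_floor_iff (Real.exp_nonneg U)).1 (Finset.mem_Icc.1 hn).2
    have hn0 : (0 : ℝ) < n := by exact_mod_cast hn1
    have hlog : Real.log n ≤ U := (Real.log_le_iff_le_exp hn0).2 hn2
    unfold Mn Gf
    by_cases hv : 1 ≤ Real.log n
    · rw [if_pos ⟨hv, hlog⟩, if_pos hv, cg_zero, mul_zero, Real.cos_zero, mul_comm s]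
      ring
    · rw [if_neg (fun h => hv h.1), if_neg hv]
      ring
  · intro n hn
    unfold Mn
    rw [if_neg, mul_zero]
    rintro ⟨h1, h2⟩
    apply hn
    have hn0 : 0 < n := by
      rcases Nat.eq_zero_or_pos n with h | h
      · subst h
        norm_num at h1
      · exact h
    have hn0' : (0 : ℝ) < n := by exact_mod_cast hn0
    exact Finset.mem_Icc.2 ⟨hn0, Nat.le_floor ((Real.log_le_iff_le_exp hn0').1 h2)⟩

/-- the sum of the coefficients up to `exp L` -/
lemma sum_ac_le {C : ℝ} (hC : 0 ≤ C) (hV : ∀ u, 0 ≤ u → Vp u ≤ C * (1 + u)) {L : ℝ} (hL : 4 ≤ L)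
    (S : Finset ℕ) (hS : ∀ n ∈ S, 1 ≤ Real.log n ∧ Real.log n ≤ L) :
    ∑ n ∈ S, ac n ≤ Real.exp 1 * (L * (C * (1 + L))) := by
  set M : ℕ := ⌊L⌋₊ with hM
  have hML : (M : ℝ) ≤ L := Nat.floor_le (by linarith)
  have hterm : ∀ n ∈ S, ac n ≤
      ∑ k ∈ Finset.Icc 1 M, Real.exp 1 * (ac n * Real.exp (-((k : ℝ) - Real.log n) ^ 2)) := by
    intro n hn
    have ha := ac_nonneg n
    have hnn : ∀ k ∈ Finset.Icc 1 M,
        0 ≤ Real.exp 1 * (ac n * Real.exp (-((k : ℝ) - Real.log n) ^ 2)) := fun k _ => by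
      positivity
    obtain ⟨hv, hvL⟩ := hS n hn
    have hv0 : 0 ≤ Real.log n := by linarith
    set k := ⌊Real.log n⌋₊ with hk
    have hk1 : 1 ≤ k := Nat.le_floor (by exact_mod_cast hv)
    have hkl : (k : ℝ) ≤ Real.log n := Nat.floor_le hv0
    have hku : Real.log n < k + 1 := Nat.lt_floor_add_one _
    have hkM : k ≤ M := Nat.floor_le_floor hvL
    refine le_trans ?_ (Finset.single_le_sum hnn (Finset.mem_Icc.2 ⟨hk1, hkM⟩))
    have h4 : 1 ≤ Real.exp 1 * Real.exp (-((k : ℝ) - Real.log n) ^ 2) := by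
      rw [← Real.exp_add]
      apply Real.one_le_exp
      nlinarith
    calc ac n = ac n * 1 := (mul_one _).symm
      _ ≤ ac n * (Real.exp 1 * Real.exp (-((k : ℝ) - Real.log n) ^ 2)) := by gcongr
      _ = _ := by ring
  calc ∑ n ∈ S, ac n ≤ ∑ n ∈ S, ∑ k ∈ Finset.Icc 1 M,
        Real.exp 1 * (ac n * Real.exp (-((k : ℝ) - Real.log n) ^ 2)) := Finset.sum_le_sum hterm
    _ = ∑ k ∈ Finset.Icc 1 M, Real.exp 1 *
        ∑ n ∈ S, ac n * Real.exp (-((k : ℝ) - Real.log n) ^ 2) := by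
        rw [Finset.sum_comm]
        refine Finset.sum_congr rfl fun k _ => ?_
        rw [Finset.mul_sum]
    _ ≤ ∑ k ∈ Finset.Icc 1 M, Real.exp 1 * (C * (1 + L)) := by
        refine Finset.sum_le_sum fun k hk => ?_
        have hk2 : (k : ℝ) ≤ M := by exact_mod_cast (Finset.mem_Icc.1 hk).2
        have hk0 : (0 : ℝ) ≤ k := Nat.cast_nonneg k
        have h1 : ∑ n ∈ S, ac n * Real.exp (-((k : ℝ) - Real.log n) ^ 2) ≤ C * (1 + L) :=
          ((part_le S k).trans (hV k hk0)).trans (by gcongr; linarith)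
        gcongr
    _ = Real.exp 1 * (M * (C * (1 + L))) := by
        rw [Finset.sum_const, Nat.card_Icc, nsmul_eq_mul, Nat.add_sub_cancel]
        ring
    _ ≤ _ := by gcongr

/-- primes between `exp (L / 2)` and `exp L` -/
lemma tail_le {C : ℝ} (hC : 0 ≤ C) (hV : ∀ u, 0 ≤ u → Vp u ≤ C * (1 + u)) {U : ℝ} (hU : 2 ≤ U)
    (s : ℝ) : |∑ n ∈ Finset.Icc 1 ⌊Real.exp (2 * U)⌋₊, Pt s n -
      ∑ n ∈ Finset.Icc 1 ⌊Real.exp U⌋₊, Pt s n| ≤ Real.exp 1 * (8 * C) := by
  have hsub : Finset.Icc 1 ⌊Real.exp U⌋₊ ⊆ Finset.Icc 1 ⌊Real.exp (2 * U)⌋₊ :=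
    Finset.Icc_subset_Icc_right (Nat.floor_le_floor (Real.exp_le_exp.2 (by linarith)))
  rw [← Finset.sum_sdiff hsub, add_sub_cancel_right]
  set S := Finset.Icc 1 ⌊Real.exp (2 * U)⌋₊ \ Finset.Icc 1 ⌊Real.exp U⌋₊ with hSdef
  have hS : ∀ n ∈ S, U < Real.log n ∧ Real.log n ≤ 2 * U ∧ (0 : ℝ) < n := by
    intro n hn
    rw [hSdef, Finset.mem_sdiff, Finset.mem_Icc, Finset.mem_Icc] at hn
    obtain ⟨⟨h1, h2⟩, h3⟩ := hn
    have hn0 : (0 : ℝ) < n := by exact_mod_cast h1
    refine ⟨?_, (Real.log_le_iff_le_exp hn0).2 ((Nat.le_floor_iff (Real.exp_nonneg _)).1 h2), hn0⟩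
    by_contra hc
    exact h3 ⟨h1, Nat.le_floor ((Real.log_le_iff_le_exp hn0).1 (not_lt.1 hc))⟩
  have hsum := sum_ac_le hC hV (L := 2 * U) (by linarith) S
    (fun n hn => ⟨by linarith [(hS n hn).1], (hS n hn).2.1⟩)
  have hU0 : 0 < U := by linarith
  calc |∑ n ∈ S, Pt s n| ≤ ∑ n ∈ S, |Pt s n| := Finset.abs_sum_le_sum_abs _ _
    _ ≤ ∑ n ∈ S, 1 / U ^ 2 * ac n := by
        refine Finset.sum_le_sum fun n hn => ?_
        obtain ⟨h1, h2, hn0⟩ := hS n hn
        have ha := ac_nonneg n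
        unfold Pt
        split_ifs with hp
        · rw [abs_div, abs_of_pos hn0]
          have e1 : ac n = Real.log n ^ 2 / n := by
            unfold ac
            rw [ArithmeticFunction.vonMangoldt_apply_prime hp]
          rw [e1]
          calc |Real.cos (s * Real.log n)| / n ≤ 1 / n := by
                gcongr
                exact Real.abs_cos_le_one _
            _ = 1 / U ^ 2 * (U ^ 2 / n) := by
                field_simp
            _ ≤ 1 / U ^ 2 * (Real.log n ^ 2 / n) := by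
                gcongr
        · rw [abs_zero]
          positivity
    _ = 1 / U ^ 2 * ∑ n ∈ S, ac n := by rw [Finset.mul_sum]
    _ ≤ 1 / U ^ 2 * (Real.exp 1 * (2 * U * (C * (1 + 2 * U)))) := by gcongr
    _ ≤ Real.exp 1 * (8 * C) := by
        have he := Real.exp_pos 1
        rw [one_div, inv_mul_le_iff₀ (by positivity)]
        have h5 : 2 * U * (C * (1 + 2 * U)) ≤ U ^ 2 * (8 * C) := by
          nlinarith [mul_nonneg hC hU0.le, mul_nonneg hC (mul_nonneg hU0.le (by linarith : (0:ℝ) ≤ U - 2))]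
        calc Real.exp 1 * (2 * U * (C * (1 + 2 * U))) ≤ Real.exp 1 * (U ^ 2 * (8 * C)) := by
              gcongr
          _ = _ := by ring

/-- **Package VCS.** -/
theorem t_VCS : S_PRS → S_PP → S_PPS → S_VCS := by
  rintro ⟨C1, hC1, hPR⟩ ⟨C, T0, hC, -, -, -, -, hV, -⟩ -
  have hk := kk_nonneg
  have hM : 0 ≤ ∑' n, Np n := tsum_nonneg Np_nonneg
  have hz : 0 ≤ zz := tsum_nonneg fun k => by positivity
  have hee : 0 ≤ ee C := by
    unfold ee
    positivity
  have hpi := Real.sqrt_nonneg Real.pi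
  refine ⟨2 * kk * ee C + Real.sqrt Real.pi * ((1 / 2 + ∑' n, Np n) + Real.exp 1 * (8 * C) + C1) +
    1, by positivity, fun L hL s hs => ?_⟩
  obtain ⟨U, rfl⟩ : ∃ U, L = 2 * U := ⟨L / 2, by ring⟩
  have hU : 2 ≤ U := by linarith
  rw [show 2 * U / 2 = U by ring]
  have s1 := step_one_s hC.le hV (by linarith : 1 ≤ U) s
  rw [main_eq_s] at s1
  have s2 := step_two s (Finset.Icc 1 ⌊Real.exp U⌋₊)
  have s4 := tail_le hC.le hV hU s
  have s3 := hPR (Real.exp (2 * U)) (by linarith [Real.add_one_le_exp (2 * U)]) s hs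
  rw [Real.log_exp, Finset.sum_filter] at s3
  have e0 : ∑ a ∈ Finset.Icc 1 ⌊Real.exp (2 * U)⌋₊, (if Nat.Prime a then
      Real.cos (s * Real.log a) / a else 0) = ∑ n ∈ Finset.Icc 1 ⌊Real.exp (2 * U)⌋₊, Pt s n := rfl
  rw [e0] at s3
  set I0 := ∫ u in (1 : ℝ)..U, Vps s u / u ^ 2
  set SG := ∑ n ∈ Finset.Icc 1 ⌊Real.exp U⌋₊, Gf s n
  set SP := ∑ n ∈ Finset.Icc 1 ⌊Real.exp U⌋₊, Pt s n
  set SQ := ∑ n ∈ Finset.Icc 1 ⌊Real.exp (2 * U)⌋₊, Pt s n
  set Z := Real.log ‖riemannZeta (((1 + 1 / (2 * U) : ℝ) : ℂ) + s * Complex.I)‖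
  have e1 : I0 - Real.sqrt Real.pi * Z = (I0 - Real.sqrt Real.pi * SG) +
      Real.sqrt Real.pi * ((SG - SP) + (-(SQ - SP)) + (SQ - Z)) := by ring
  have b2 : |Real.sqrt Real.pi * ((SG - SP) + (-(SQ - SP)) + (SQ - Z))| ≤
      Real.sqrt Real.pi * ((1 / 2 + ∑' n, Np n) + Real.exp 1 * (8 * C) + C1) := by
    rw [abs_mul, abs_of_nonneg hpi]
    have := abs_add_three (SG - SP) (-(SQ - SP)) (SQ - Z)
    rw [abs_neg] at this
    gcongr
    linarith
  rw [e1]
  have t1 := abs_add_le (I0 - Real.sqrt Real.pi * SG)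
    (Real.sqrt Real.pi * ((SG - SP) + (-(SQ - SP)) + (SQ - Z)))
  linarith

end

end Pool.Agent.U94.MV2.VCS
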